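import Mathlib
import Pool.Agent.Helper55.Chaos.Cube

set_option autoImplicit false

open MeasureTheory ProbabilityTheory Filter
open scoped ENNReal Topology

namespace Pool.Agent.Results.MP_b1920d_pr.MomentRange

/-- The unit cube `I = [0,1]^d` in Euclidean space. -/
def cube (d : ℕ) : Set (EuclideanSpace ℝ (Fin d)) := {x | ∀ i, x i ∈ Set.Icc (0 : ℝ) 1}

/-- The origin, as a point of the cube. -/
def origin (d : ℕ) : cube d := ⟨0, fun i => by simp⟩

/-- Lebesgue measure on the cube. -/
noncomputable def cubeVol (d : ℕ) : Measure (cube d) :=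
  (volume : Measure (EuclideanSpace ℝ (Fin d))).comap Subtype.val

/-- `min (log (1 / r), s)` with the convention `log (1 / 0) = ∞`. -/
noncomputable def minLog (r s : ℝ) : ℝ := if r = 0 then s else min (Real.log (1 / r)) s

variable {d : ℕ} {Ω : Type*} [MeasurableSpace Ω]

/-- The hypotheses on the fields (`X k` here is the field `X_{k+1}` of the problem, and
`S_n = ∑ k < n, X k`): independent centred random fields on the cube with a.s. continuous
paths, satisfying (a) (without `sup_x E X_k(x)^2 → 0`), (b) and (d). Condition (c) is not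
imposed. -/
structure LogField (P : Measure Ω) (X : ℕ → Ω → cube d → ℝ) : Prop where
  /-- each `X_k(x)` is a random variable -/
  measurable : ∀ k x, Measurable fun ω => X k ω x
  /-- almost surely continuous sample paths -/
  continuous : ∀ k, ∀ᵐ ω ∂P, Continuous (X k ω)
  /-- the fields are independent -/
  indep : iIndepFun X P
  /-- the fields are centred -/
  centred : ∀ k x, ∫ ω, X k ω x ∂P = 0
  /-- (a), `∑_k E X_k(0)^2 = ∞` -/
  variance : Tendsto (fun n => ∑ k ∈ Finset.range n, ∫ ω, X k ω (origin d) ^ 2 ∂P) atTop atTop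
  /-- (a), the local covariance structure (including the diagonal `x = y`) -/
  covariance : ∃ δ : ℝ, 0 < δ ∧ ∃ C : ℝ, ∀ n : ℕ, 1 ≤ n → ∀ x y : cube d, dist x y ≤ δ →
    |∑ k ∈ Finset.range n, ∫ ω, X k ω x * X k ω y ∂P -
      minLog (dist x y) (∑ k ∈ Finset.range n, ∫ ω, X k ω (origin d) ^ 2 ∂P)| ≤ C
  /-- (b) -/
  moment : ∃ ε : ℝ, 0 < ε ∧ ∃ B : ℝ, ∀ (x : cube d) (n : ℕ),
    ∑ k ∈ Finset.range n, (∫ ω, |X k ω x| ^ (3 + ε) ∂P) ^ (3 / (3 + ε)) ≤ B
  /-- (d) -/
  expMoment : ∀ s : ℝ, ∃ B : ℝ, ∀ k x,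
    ∫⁻ ω, ENNReal.ofReal (Real.exp (s * X k ω x)) ∂P ≤ ENNReal.ofReal B

/-- The measure `μ_n(dx; β) = exp (β S_n(x)) / E exp (β S_n(x)) dx` on the cube. -/
noncomputable def chaosApprox (P : Measure Ω) (X : ℕ → Ω → cube d → ℝ) (β : ℝ) (n : ℕ)
    (ω : Ω) : Measure (cube d) :=
  (cubeVol d).withDensity fun x => ENNReal.ofReal
    (Real.exp (β * ∑ k ∈ Finset.range n, X k ω x) /
      ∫ ω', Real.exp (β * ∑ k ∈ Finset.range n, X k ω' x) ∂P)

/-- The total mass `M_β = lim μ_n(I; β)` (the first part of the theorem says that the limit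
exists almost surely, so that the lower limit is the limit). -/
noncomputable def totalMass (P : Measure Ω) (X : ℕ → Ω → cube d → ℝ) (β : ℝ) (ω : Ω) : ℝ≥0∞ :=
  liminf (fun n => chaosApprox P X β n ω Set.univ) atTop

/-- For `0 < β < √(2d)`, the masses `μ_n(I; β)` converge a.s. to `M_β`, and for `p > 0`
the moment `E M_β^p` is finite if and only if `p < 2d / β²`. -/
theorem result (hd : 1 ≤ d) (P : Measure Ω) [IsProbabilityMeasure P]
    (X : ℕ → Ω → cube d → ℝ) (hX : LogField P X) {β : ℝ} (hβ : 0 < β)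
    (hβ' : β < Real.sqrt (2 * d)) :
    (∀ᵐ ω ∂P, Tendsto (fun n => chaosApprox P X β n ω Set.univ) atTop
      (𝓝 (totalMass P X β ω))) ∧
    ∀ p : ℝ, 0 < p → (∫⁻ ω, totalMass P X β ω ^ p ∂P < ⊤ ↔ p < 2 * d / β ^ 2) := by
  obtain ⟨cv, hvol⟩ := Helper55.Chaos.cubeS_hvol d
  have : CompactSpace (cube d) := inferInstanceAs (CompactSpace (Helper55.Chaos.cubeS d))
  have : IsFiniteMeasure (cubeVol d) :=
    inferInstanceAs (IsFiniteMeasure (Helper55.Chaos.volS d))
  have : Nonempty (cube d) := ⟨origin d⟩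
  have hd0 : (0 : ℝ) < d := by exact_mod_cast hd
  have hsub : β ^ 2 / 2 < d := by
    have h1 : β ^ 2 < Real.sqrt (2 * d) ^ 2 := pow_lt_pow_left₀ hβ' hβ.le two_ne_zero
    rw [Real.sq_sqrt (by positivity)] at h1
    linarith
  obtain ⟨δ, hδ, C, hC⟩ := hX.covariance
  have hC0 : 0 ≤ C := (abs_nonneg _).trans
    (hC 1 le_rfl (origin d) (origin d) (by rw [dist_self]; exact hδ.le))
  have hcorr : ∃ δ > 0, ∃ C : ℝ, (∀ n (x : cube d),
      |∑ k ∈ Finset.range n, ∫ ω, X k ω x ^ 2 ∂P -
        ∑ k ∈ Finset.range n, ∫ ω, X k ω (origin d) ^ 2 ∂P| ≤ C) ∧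
      ∀ n (x y : cube d), x ≠ y → dist x y ≤ δ →
        |∑ k ∈ Finset.range n, ∫ ω, X k ω x * X k ω y ∂P -
        min (Real.log (1 / dist x y))
          (∑ k ∈ Finset.range n, ∫ ω, X k ω (origin d) ^ 2 ∂P)| ≤ C := by
    refine ⟨min δ 1, by positivity, C, ?_, ?_⟩
    · intro n x
      rcases Nat.eq_zero_or_pos n with hn | hn
      · subst hn; simpa using hC0
      · have h := hC n hn x x (by rw [dist_self]; exact hδ.le)
        rw [dist_self, minLog, if_pos rfl] at h
        simpa only [sq] using h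
    · intro n x y hxy hdist
      have hpos : 0 < dist x y := dist_pos.2 hxy
      rcases Nat.eq_zero_or_pos n with hn | hn
      · subst hn
        have h1 : dist x y ≤ 1 := hdist.trans (min_le_right _ _)
        have h2 : 0 ≤ Real.log (1 / dist x y) := by
          apply Real.log_nonneg
          rw [le_div_iff₀ hpos]
          linarith
        simp only [Finset.range_zero, Finset.sum_empty]
        rw [min_eq_right h2]
        simpa using hC0
      · have h := hC n hn x y (hdist.trans (min_le_left _ _))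
        rwa [minLog, if_neg hpos.ne'] at h
  exact Helper55.Chaos.main_general (ν := cubeVol d) (origin d) hd0 hvol
    (Helper55.Chaos.cubeS_hasParts hd) hX.measurable hX.continuous hX.indep hX.centred
    hX.variance hcorr hX.moment hX.expMoment hβ hsub
    (fun n ω => chaosApprox P X β n ω Set.univ) rfl

end Pool.Agent.Results.MP_b1920d_pr.MomentRange
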